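import Mathlib

/-!
# Escape under doubling on the Legendre family (piece SYM-D1)
-/

set_option autoImplicit false

namespace Pool.Agent.Helper6.SYM

open Polynomial

/-- The invariant of the doubling procedure. -/
structure Inv {k : Type*} [Field k] (Λ c P Q : k[X]) : Prop where
  cop : IsCoprime P Q
  Q0 : Q ≠ 0
  deg : P.natDegree = Q.natDegree + c.natDegree
  rel : ∃ S T : k[X], S ≠ 0 ∧ T ≠ 0 ∧
    P * (P - Q) * (P - Λ * Q) * T ^ 2 = c * (c - 1) * (c - Λ) * S ^ 2 * Q ^ 3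

lemma natDegree_sub_of_lt {k : Type*} [Field k] {P R : k[X]} (h : R.natDegree < P.natDegree) :
    (P - R).natDegree = P.natDegree :=
  natDegree_sub_eq_left_of_natDegree_lt h

lemma Inv.step {k : Type*} [Field k] [CharZero k] {Λ c P Q : k[X]} (h0 : Λ ≠ 0) (h1 : Λ ≠ 1)
    (hc : 2 * Λ.natDegree + 1 ≤ c.natDegree) (h : Inv Λ c P Q) :
    ∃ P' Q' : k[X], Inv Λ c P' Q' ∧ P.natDegree + 3 ≤ P'.natDegree := by
  classical
  obtain ⟨hcop, hQ0, hdeg, S, T, hS, hT, hrel⟩ := h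
  set p := P.natDegree with hp
  set l := Λ.natDegree with hl
  have hP0 : P ≠ 0 := by
    intro hP
    rw [hP] at hp
    simp at hp
    omega
  have hΛQ : (Λ * Q).natDegree < p := by
    rw [natDegree_mul h0 hQ0]
    omega
  have hQp : Q.natDegree < p := by omega
  have hd1 : (P - Q).natDegree = p := natDegree_sub_of_lt hQp
  have hd2 : (P - Λ * Q).natDegree = p := natDegree_sub_of_lt hΛQ
  have hne1 : P - Q ≠ 0 := by
    intro h; rw [h] at hd1; simp at hd1; omega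
  have hne2 : P - Λ * Q ≠ 0 := by
    intro h; rw [h] at hd2; simp at hd2; omega
  have hP2 : (P ^ 2).natDegree = 2 * p := natDegree_pow P 2
  have hsub : ∀ R : k[X], R.natDegree < 2 * p → (P ^ 2 - R).natDegree = 2 * p := by
    intro R hR
    rw [natDegree_sub_of_lt (by rw [hP2]; exact hR), hP2]
  set q := P ^ 2 - Λ * Q ^ 2 with hq
  have hqd : q.natDegree = 2 * p := by
    apply hsub
    rw [natDegree_mul h0 (pow_ne_zero 2 hQ0), natDegree_pow]
    omega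
  set r := P ^ 2 - (2 * P * Q - Λ * Q ^ 2) with hr
  have h2 : (2 : k[X]) ≠ 0 := two_ne_zero
  have h2d : (2 : k[X]).natDegree = 0 := natDegree_ofNat 2
  have hrd : r.natDegree = 2 * p := by
    apply hsub
    refine lt_of_le_of_lt (natDegree_sub_le _ _) (max_lt ?_ ?_)
    · rw [natDegree_mul (mul_ne_zero h2 hP0) hQ0, natDegree_mul h2 hP0, h2d]
      omega
    · rw [natDegree_mul h0 (pow_ne_zero 2 hQ0), natDegree_pow]
      omega
  set s := P ^ 2 - (2 * Λ * P * Q - Λ * Q ^ 2) with hs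
  have hsd : s.natDegree = 2 * p := by
    apply hsub
    refine lt_of_le_of_lt (natDegree_sub_le _ _) (max_lt ?_ ?_)
    · rw [natDegree_mul (mul_ne_zero (mul_ne_zero h2 h0) hP0) hQ0,
        natDegree_mul (mul_ne_zero h2 h0) hP0, natDegree_mul h2 h0, h2d]
      omega
    · rw [natDegree_mul h0 (pow_ne_zero 2 hQ0), natDegree_pow]
      omega
  have hp0 : 0 < p := by omega
  have hq0 : q ≠ 0 := by intro h; rw [h] at hqd; simp at hqd; omega
  have hr0 : r ≠ 0 := by intro h; rw [h] at hrd; simp at hrd; omega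
  have hs0 : s ≠ 0 := by intro h; rw [h] at hsd; simp at hsd; omega
  have h4 : (4 : k[X]) ≠ 0 := by norm_num
  have h4d : (4 : k[X]).natDegree = 0 := natDegree_ofNat 4
  set f := q ^ 2 with hf
  set g := 4 * P * Q * (P - Q) * (P - Λ * Q) with hg
  have hf0 : f ≠ 0 := pow_ne_zero 2 hq0
  have hg0 : g ≠ 0 :=
    mul_ne_zero (mul_ne_zero (mul_ne_zero (mul_ne_zero h4 hP0) hQ0) hne1) hne2
  have hfd : f.natDegree = 4 * p := by rw [hf, natDegree_pow, hqd]; ring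
  have hgd : g.natDegree = 3 * p + Q.natDegree := by
    rw [hg, natDegree_mul (mul_ne_zero (mul_ne_zero (mul_ne_zero h4 hP0) hQ0) hne1) hne2,
      natDegree_mul (mul_ne_zero (mul_ne_zero h4 hP0) hQ0) hne1,
      natDegree_mul (mul_ne_zero h4 hP0) hQ0, natDegree_mul h4 hP0, h4d, hd1, hd2]
    omega
  -- the gcd
  obtain ⟨D, P', Q', hcop', hfD, hgD⟩ : ∃ D P' Q' : k[X], IsCoprime P' Q' ∧ f = D * P' ∧
      g = D * Q' := by
    have hg' : EuclideanDomain.gcd f g ≠ 0 := by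
      intro h; exact hf0 (EuclideanDomain.gcd_eq_zero_iff.1 h).1
    obtain ⟨P', hP'⟩ := EuclideanDomain.gcd_dvd_left f g
    obtain ⟨Q', hQ'⟩ := EuclideanDomain.gcd_dvd_right f g
    refine ⟨EuclideanDomain.gcd f g, P', Q', ?_, hP', hQ'⟩
    refine ⟨EuclideanDomain.gcdA f g, EuclideanDomain.gcdB f g, ?_⟩
    apply mul_left_cancel₀ hg'
    have h3 := EuclideanDomain.gcd_eq_gcd_ab f g
    rw [mul_one]
    calc EuclideanDomain.gcd f g * (EuclideanDomain.gcdA f g * P' + EuclideanDomain.gcdB f g * Q')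
        = (EuclideanDomain.gcd f g * P') * EuclideanDomain.gcdA f g +
          (EuclideanDomain.gcd f g * Q') * EuclideanDomain.gcdB f g := by ring
      _ = f * EuclideanDomain.gcdA f g + g * EuclideanDomain.gcdB f g := by rw [← hP', ← hQ']
      _ = EuclideanDomain.gcd f g := h3.symm
  have hD0 : D ≠ 0 := by intro h; rw [h, zero_mul] at hfD; exact hf0 hfD
  have hP'0 : P' ≠ 0 := by intro h; rw [h, mul_zero] at hfD; exact hf0 hfD
  have hQ'0 : Q' ≠ 0 := by intro h; rw [h, mul_zero] at hgD; exact hg0 hgD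
  have hfdeg : 4 * p = D.natDegree + P'.natDegree := by
    rw [← hfd, hfD, natDegree_mul hD0 hP'0]
  have hgdeg : 3 * p + Q.natDegree = D.natDegree + Q'.natDegree := by
    rw [← hgd, hgD, natDegree_mul hD0 hQ'0]
  -- the degree of the gcd
  have hDf : D ∣ f := ⟨P', hfD⟩
  have hDg : D ∣ g := ⟨Q', hgD⟩
  have hcopq : IsCoprime q Q := by
    have h3 : IsCoprime (P ^ 2) Q := hcop.pow_left
    have h4 : q = P ^ 2 + Q * (-(Λ * Q)) := by rw [hq]; ring
    rw [h4]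
    exact h3.add_mul_left_left _
  have hcopD : IsCoprime D Q := by
    have h3 : IsCoprime f Q := hcopq.pow_left
    exact h3.of_isCoprime_of_dvd_left hDf
  set W := (P * Q - (1 + Λ) * Q ^ 2) * (2 * P + (1 + Λ) * Q) + 4 * Λ * Q ^ 3 with hW
  have hid : g * (2 * P + (1 + Λ) * Q) = 4 * q * W - 4 * Λ * (1 - Λ) ^ 2 * Q ^ 5 := by
    rw [hg, hq, hW]; ring
  have hDdvd : D ∣ (16 * Λ ^ 2 * (1 - Λ) ^ 4) * Q ^ 10 := by
    have h3 : (16 * Λ ^ 2 * (1 - Λ) ^ 4) * Q ^ 10 =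
        f * (16 * W ^ 2) + g * ((2 * P + (1 + Λ) * Q) *
          (-(8 * q * W) + g * (2 * P + (1 + Λ) * Q))) := by
      have h4 : 4 * Λ * (1 - Λ) ^ 2 * Q ^ 5 = 4 * q * W - g * (2 * P + (1 + Λ) * Q) := by
        rw [hid]; ring
      calc (16 * Λ ^ 2 * (1 - Λ) ^ 4) * Q ^ 10 = (4 * Λ * (1 - Λ) ^ 2 * Q ^ 5) ^ 2 := by ring
        _ = (4 * q * W - g * (2 * P + (1 + Λ) * Q)) ^ 2 := by rw [h4]
        _ = _ := by rw [hf]; ring
    rw [h3]
    exact dvd_add (hDf.mul_right _) (hDg.mul_right _)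
  have hDdvd' : D ∣ 16 * Λ ^ 2 * (1 - Λ) ^ 4 :=
    (hcopD.pow_right).dvd_of_dvd_mul_right hDdvd
  have h16 : (16 : k[X]) ≠ 0 := by norm_num
  have h16d : (16 : k[X]).natDegree = 0 := natDegree_ofNat 16
  have h1Λ : (1 - Λ) ≠ 0 := sub_ne_zero.2 (Ne.symm h1)
  have h1Λd : (1 - Λ).natDegree ≤ l := by
    refine (natDegree_sub_le _ _).trans (max_le ?_ le_rfl)
    rw [natDegree_one]; omega
  have hDdeg : D.natDegree ≤ 6 * l := by
    refine (natDegree_le_of_dvd hDdvd' (mul_ne_zero (mul_ne_zero h16 (pow_ne_zero 2 h0))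
      (pow_ne_zero 4 h1Λ))).trans ?_
    rw [natDegree_mul (mul_ne_zero h16 (pow_ne_zero 2 h0)) (pow_ne_zero 4 h1Λ),
      natDegree_mul h16 (pow_ne_zero 2 h0), natDegree_pow, natDegree_pow, h16d]
    omega
  refine ⟨P', Q', ⟨hcop', hQ'0, by omega, 2 * S * Q ^ 2 * (q * r * s), g ^ 2 * T, ?_, ?_, ?_⟩,
    by omega⟩
  · exact mul_ne_zero (mul_ne_zero (mul_ne_zero h2 hS) (pow_ne_zero 2 hQ0))
      (mul_ne_zero (mul_ne_zero hq0 hr0) hs0)
  · exact mul_ne_zero (pow_ne_zero 2 hg0) hT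
  · apply mul_left_cancel₀ (pow_ne_zero 3 hD0)
    have e1 : D * P' * (D * P' - D * Q') * (D * P' - Λ * (D * Q')) = (q * r * s) ^ 2 := by
      rw [← hfD, ← hgD, hf, hg, hq, hr, hs]; ring
    have e2 : g * T ^ 2 = c * (c - 1) * (c - Λ) * (2 * S * Q ^ 2) ^ 2 := by
      calc g * T ^ 2 = 4 * Q * (P * (P - Q) * (P - Λ * Q) * T ^ 2) := by rw [hg]; ring
        _ = _ := by rw [hrel]; ring
    calc D ^ 3 * (P' * (P' - Q') * (P' - Λ * Q') * (g ^ 2 * T) ^ 2) =
          (D * P' * (D * P' - D * Q') * (D * P' - Λ * (D * Q'))) * (g ^ 3 * (g * T ^ 2)) := by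
          ring
      _ = (q * r * s) ^ 2 * ((D * Q') ^ 3 * (c * (c - 1) * (c - Λ) * (2 * S * Q ^ 2) ^ 2)) := by
          rw [e1, e2, ← hgD]
      _ = _ := by ring

/-- D1: escape under doubling on the Legendre family -/
theorem legendre_escape {k : Type*} [Field k] [CharZero k] (Λ : k[X]) (h0 : Λ ≠ 0) (h1 : Λ ≠ 1)
    (c : k[X]) (hc : 2 * Λ.natDegree + 1 ≤ c.natDegree) (δ : ℕ) :
    ∃ P Q S T : k[X], Q ≠ 0 ∧ S ≠ 0 ∧ T ≠ 0 ∧
      P * (P - Q) * (P - Λ * Q) * T ^ 2 = c * (c - 1) * (c - Λ) * S ^ 2 * Q ^ 3 ∧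
      ∀ f : k[X][X], f ≠ 0 → (∀ i, (f.coeff i).natDegree ≤ δ) →
        ∑ i ∈ Finset.range (f.natDegree + 1), f.coeff i * P ^ i * Q ^ (f.natDegree - i) ≠ 0 := by
  have hex : ∀ m : ℕ, ∃ P Q : k[X], Inv Λ c P Q ∧ m ≤ P.natDegree := by
    intro m
    induction m with
    | zero =>
      refine ⟨c, 1, ⟨isCoprime_one_right, one_ne_zero, by simp, 1, 1, one_ne_zero, one_ne_zero,
        by ring⟩, Nat.zero_le _⟩
    | succ m ih =>
      obtain ⟨P, Q, h, hm⟩ := ih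
      obtain ⟨P', Q', h', hm'⟩ := h.step h0 h1 hc
      exact ⟨P', Q', h', by omega⟩
  obtain ⟨P, Q, ⟨hcop, hQ0, hdeg, S, T, hS, hT, hrel⟩, hm⟩ := hex (δ + 1)
  refine ⟨P, Q, S, T, hQ0, hS, hT, hrel, ?_⟩
  intro f hf hδ hsum
  have hP0 : P ≠ 0 := by
    intro h; rw [h] at hm; simp at hm
  set n := f.natDegree with hn
  set i₀ := f.natTrailingDegree with hi₀
  have hi₀n : i₀ ≤ n := natTrailingDegree_le_natDegree f
  have hc0 : f.coeff i₀ ≠ 0 := by
    have := trailingCoeff_nonzero_iff_nonzero.2 hf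
    exact this
  have hlow : ∀ i < i₀, f.coeff i = 0 := fun i hi => coeff_eq_zero_of_lt_natTrailingDegree hi
  have hmem : i₀ ∈ Finset.range (n + 1) := Finset.mem_range.2 (by omega)
  rw [← Finset.add_sum_erase _ _ hmem] at hsum
  have hdvd : P ^ (i₀ + 1) ∣ ∑ i ∈ (Finset.range (n + 1)).erase i₀,
      f.coeff i * P ^ i * Q ^ (n - i) := by
    apply Finset.dvd_sum
    intro i hi
    have hi1 := (Finset.mem_erase.1 hi).1
    rcases lt_or_gt_of_ne hi1 with h | h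
    · rw [hlow i h]; simp
    · apply Dvd.dvd.mul_right
      apply Dvd.dvd.mul_left
      exact pow_dvd_pow P h
  have hdvd2 : P ^ (i₀ + 1) ∣ f.coeff i₀ * P ^ i₀ * Q ^ (n - i₀) := by
    have : f.coeff i₀ * P ^ i₀ * Q ^ (n - i₀) = -∑ i ∈ (Finset.range (n + 1)).erase i₀,
        f.coeff i * P ^ i * Q ^ (n - i) := eq_neg_of_add_eq_zero_left hsum
    rw [this]
    exact (dvd_neg).2 hdvd
  have hdvd3 : P ∣ f.coeff i₀ * Q ^ (n - i₀) := by
    have h3 : P ^ i₀ * P ∣ P ^ i₀ * (f.coeff i₀ * Q ^ (n - i₀)) := by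
      rw [← pow_succ]
      convert hdvd2 using 1
      ring
    exact (mul_dvd_mul_iff_left (pow_ne_zero i₀ hP0)).1 h3
  have hdvd4 : P ∣ f.coeff i₀ := (hcop.pow_right).dvd_of_dvd_mul_right hdvd3
  have h5 := natDegree_le_of_dvd hdvd4 hc0
  have h6 := hδ i₀
  omega

end Pool.Agent.Helper6.SYM
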